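import Pool.Agent.Helper35.HC.StB

/-!
# Project HC (MP_925021_gt), module PRG: the region is preserved
-/

set_option autoImplicit false

namespace Helper47.HC

open Helper35.HC Helper35.HSF Helper35.MS Helper35.PI Helper35.PI2 Helper32.CL
open scoped ContDiff Manifold Topology ENNReal BigOperators
open MeasureTheory Set Filter

section Aux

variable {n : ℕ} {M : Type} [TopologicalSpace M] [ChartedSpace (EE n) M]
  [IsManifold (𝓡 n) ∞ M] {J : Set ℝ} {F : M → ℝ → EE (n + 3)}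

/-- `0 ≤ xN` -/
theorem xN_nonneg (hSPJ : StSPJ) (hGCH : StGCH) (hC1 : StC1) (hn : 1 ≤ n) (hF : SFl n J F)
    (q : M) (t : ℝ) (ht : t ∈ J) : 0 ≤ xN n F q t := by
  obtain ⟨L, hL⟩ := hC1 n (n + 3) _ (hF.mcf.imm q t ht)
  obtain ⟨u, θ, hch, -, -⟩ := hGCH n (n + 3) M J F hF.mcf q t ht L hL
  obtain ⟨-, -, -, -, -, -, -, -, -, -, -, -, h, -⟩ :=
    hSPJ n hn M J F hF q t ht L u θ hch _ _ rfl rfl
  exact h

theorem rr_cont : Continuous (fun t => rr n t) := by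
  unfold rr
  fun_prop

theorem xN_cont (hSMF : StSMF) (hF : SFl n J F) :
    ContinuousOn (fun z : M × ℝ => xN n F z.1 z.2) (univ ×ˢ J) := by
  obtain ⟨-, -, -, h, -⟩ := hSMF n (n + 3) M J F hF.mcf.toIsImmJ
  have h1 : ContinuousOn (fun z : M × ℝ => ‖HH (n := n) F z.1 z.2‖ ^ 2) (univ ×ˢ J) :=
    h.continuousOn
  have h2 : ContinuousOn (fun z : M × ℝ => rr n z.2) (univ ×ˢ J) :=
    (rr_cont.comp continuous_snd).continuousOn
  have h3 : ContinuousOn (fun z : M × ℝ => rr n z.2 * ‖HH (n := n) F z.1 z.2‖ ^ 2 / n ^ 2 - 1)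
      (univ ×ˢ J) := ((h2.mul h1).div_const _).sub continuousOn_const
  exact h3

theorem thN_cont (hSMF : StSMF) (hF : SFl n J F) :
    ContinuousOn (fun z : M × ℝ => thN n F z.1 z.2) (univ ×ˢ J) := by
  obtain ⟨-, -, -, -, h, -⟩ := hSMF n (n + 3) M J F hF.mcf.toIsImmJ
  exact h.continuousOn

theorem Gx_cont {K D B c : ℝ} (hB : 0 ≤ B) : ContinuousOn (fun x => Gx K D B c x) (Ici 0) := by
  unfold Gx
  refine ((continuousOn_const.add (continuousOn_const.mul continuousOn_id))).add ?_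
  refine continuousOn_const.div (continuousOn_const.add (continuousOn_const.mul continuousOn_id)) ?_
  intro x hx
  have hx0 : (0 : ℝ) ≤ x := hx
  have h1 : 0 ≤ B * x := mul_nonneg hB hx0
  have h2 : 0 < 1 + B * x := by linarith
  exact h2.ne'

end Aux

theorem hPRG (hTPR : StTPR) (hCPP : StCPP) (hSMF : StSMF) (hSPJ : StSPJ) (hGCH : StGCH)
    (hC1 : StC1) : StPRG := by
  intro n hn3 cK E D B c hK M _ _ _ _ _ J F hF t₁ t₂ h12 hJ l₁ hl0 hl1 hreg
  have hn1 : 1 ≤ n := by omega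
  have hnR : (0 : ℝ) < n := by exact_mod_cast (by omega : 0 < n)
  have hJo : IsOpen J := hF.mcf.op
  have hB : 0 < B := by rcases hK with h | h <;> rw [h.2.2.2.2.1] <;> norm_num
  have ht1J : t₁ ∈ J := hJ ⟨le_refl _, h12⟩
  have hr1 : 0 < rr n t₁ := hF.r0 _ ht1J
  obtain ⟨lam, hlam⟩ : ∃ lam : ℝ → ℝ, lam = fun t => l₁ * (rr n t / rr n t₁) ^ (1 / 200 : ℝ) :=
    ⟨_, rfl⟩
  have hx0 : ∀ q, ∀ t ∈ J, 0 ≤ xN n F q t := fun q t ht =>
    xN_nonneg hSPJ hGCH hC1 hn1 hF q t ht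
  have hxc := xN_cont hSMF hF
  have hθc := thN_cont hSMF hF
  have hGc : ContinuousOn (fun z : M × ℝ => Gx cK D B c (xN n F z.1 z.2)) (univ ×ˢ J) := by
    have h1 := Gx_cont (K := cK) (D := D) (B := B) (c := c) hB.le
    refine h1.comp hxc ?_
    intro z hz
    exact hx0 z.1 z.2 hz.2
  have hlc : ContinuousOn lam J := by
    rw [hlam]
    refine continuousOn_const.mul ?_
    refine ContinuousOn.rpow_const ((rr_cont (n := n)).continuousOn.div_const _) ?_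
    intro t ht
    exact Or.inr (by norm_num)
  have hlc2 : ContinuousOn (fun z : M × ℝ => lam z.2) (univ ×ˢ J) :=
    hlc.comp continuousOn_snd fun z hz => hz.2
  have hrc2 : ContinuousOn (fun z : M × ℝ => rr n z.2) (univ ×ˢ J) :=
    (rr_cont.comp continuous_snd).continuousOn
  intro t ht q z hz
  by_contra hcon
  push Not at hcon
  -- the bad set
  obtain ⟨K, hKdef⟩ : ∃ K : Set ((M × ℝ) × ℝ), K =
      {p : (M × ℝ) × ℝ | p.1.2 ∈ Icc t₁ t₂ ∧ p.2 ∈ PSN n F p.1.1 p.1.2} := ⟨_, rfl⟩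
  have hKc : IsCompact K := by
    rw [hKdef]
    exact (hCPP n (n + 3) M J F hF.mcf.toIsImmJ).1 t₁ t₂ hJ
  have hmap : MapsTo (fun p : (M × ℝ) × ℝ => p.1) K (univ ×ˢ J) := by
    intro p hp
    rw [hKdef] at hp
    exact ⟨mem_univ _, hJ hp.1⟩
  obtain ⟨Φ, hΦ⟩ : ∃ Φ : (M × ℝ) × ℝ → ℝ, Φ = fun p =>
      rr n p.1.2 * (p.2 + E / n * thN n F p.1.1 p.1.2)
        - lam p.1.2 * Gx cK D B c (xN n F p.1.1 p.1.2) := ⟨_, rfl⟩
  have hΦc : ContinuousOn Φ K := by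
    have e1 : ContinuousOn (fun p : (M × ℝ) × ℝ => rr n p.1.2) K :=
      hrc2.comp continuousOn_fst hmap
    have e2 : ContinuousOn (fun p : (M × ℝ) × ℝ => thN n F p.1.1 p.1.2) K :=
      hθc.comp continuousOn_fst hmap
    have e3 : ContinuousOn (fun p : (M × ℝ) × ℝ => lam p.1.2) K :=
      hlc2.comp continuousOn_fst hmap
    have e4 : ContinuousOn (fun p : (M × ℝ) × ℝ => Gx cK D B c (xN n F p.1.1 p.1.2)) K :=
      hGc.comp continuousOn_fst hmap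
    rw [hΦ]
    exact (e1.mul (continuousOn_snd.add (continuousOn_const.mul e2))).sub (e3.mul e4)
  have hΓc : IsCompact (K ∩ Φ ⁻¹' Ici 0) :=
    hKc.of_isClosed_subset (hΦc.preimage_isClosed_of_isClosed hKc.isClosed isClosed_Ici)
      inter_subset_left
  have hΓne : (K ∩ Φ ⁻¹' Ici 0).Nonempty := by
    refine ⟨((q, t), z), ?_, ?_⟩
    · rw [hKdef]
      exact ⟨ht, hz⟩
    · show (0 : ℝ) ≤ Φ ((q, t), z)
      rw [hΦ, hlam]
      show (0 : ℝ) ≤ rr n t * (z + E / n * thN n F q t)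
        - l₁ * (rr n t / rr n t₁) ^ (1 / 200 : ℝ) * Gx cK D B c (xN n F q t)
      linarith
  obtain ⟨p₀, hp₀, hmin⟩ := hΓc.exists_isMinOn hΓne
    (f := fun p : (M × ℝ) × ℝ => p.1.2) (by fun_prop)
  obtain ⟨⟨x₀, t₀⟩, z₀⟩ := p₀
  have hp0K : t₀ ∈ Icc t₁ t₂ ∧ z₀ ∈ PSN n F x₀ t₀ := by
    have := hp₀.1
    rw [hKdef] at this
    exact this
  have ht0J : t₀ ∈ J := hJ hp0K.1
  have hbad : lam t₀ * Gx cK D B c (xN n F x₀ t₀) ≤ rr n t₀ * (z₀ + E / n * thN n F x₀ t₀) := by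
    have h1 : (0 : ℝ) ≤ Φ ((x₀, t₀), z₀) := hp₀.2
    rw [hΦ] at h1
    have h2 : (0 : ℝ) ≤ rr n t₀ * (z₀ + E / n * thN n F x₀ t₀)
        - lam t₀ * Gx cK D B c (xN n F x₀ t₀) := h1
    linarith
  have hgood : ∀ s, t₁ ≤ s → s < t₀ → ∀ y, ∀ w ∈ PSN n F y s,
      rr n s * (w + E / n * thN n F y s) < lam s * Gx cK D B c (xN n F y s) := by
    intro s hs1 hs2 y w hw
    by_contra hc
    push Not at hc
    have hmem : (((y, s), w) : (M × ℝ) × ℝ) ∈ K ∩ Φ ⁻¹' Ici 0 := by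
      refine ⟨?_, ?_⟩
      · rw [hKdef]
        exact ⟨⟨hs1, hs2.le.trans hp0K.1.2⟩, hw⟩
      · show (0 : ℝ) ≤ Φ ((y, s), w)
        rw [hΦ]
        show (0 : ℝ) ≤ rr n s * (w + E / n * thN n F y s)
          - lam s * Gx cK D B c (xN n F y s)
        linarith
    have h3 : t₀ ≤ s := (isMinOn_iff.1 hmin) _ hmem
    linarith
  have hlam1 : lam t₁ = l₁ := by
    rw [hlam]
    show l₁ * (rr n t₁ / rr n t₁) ^ (1 / 200 : ℝ) = l₁
    rw [div_self hr1.ne', Real.one_rpow, mul_one]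
  have ht10 : t₁ < t₀ := by
    rcases hp0K.1.1.eq_or_lt with h | h
    · exfalso
      subst h
      have h4 := hreg x₀ z₀ hp0K.2
      rw [hlam1] at hbad
      linarith
    · exact h
  -- continuity in time
  have htime : ∀ (φ : M → ℝ → ℝ), ContinuousOn (fun w : M × ℝ => φ w.1 w.2) (univ ×ˢ J) →
      ∀ y, ContinuousAt (fun s => φ y s) t₀ := by
    intro φ hφ y
    have h5 : ContinuousAt (fun w : M × ℝ => φ w.1 w.2) (y, t₀) :=
      hφ.continuousAt ((isOpen_univ.prod hJo).mem_nhds ⟨mem_univ _, ht0J⟩)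
    exact ContinuousAt.comp (f := fun s : ℝ => ((y, s) : M × ℝ))
      (g := fun w : M × ℝ => φ w.1 w.2) (x := t₀) h5
      (Continuous.prodMk_right y).continuousAt
  have hweak : ∀ y, ∀ w ∈ PSN n F y t₀,
      rr n t₀ * (w + E / n * thN n F y t₀) ≤ lam t₀ * Gx cK D B c (xN n F y t₀) := by
    intro y w hw
    obtain ⟨ζ, hζc, hζ0, hζm⟩ := (hCPP n (n + 3) M J F hF.mcf.toIsImmJ).2 y t₀ ht0J w hw
    have hl : Tendsto (fun s => rr n s * (ζ s + E / n * thN n F y s)) (𝓝 t₀)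
        (𝓝 (rr n t₀ * (w + E / n * thN n F y t₀))) := by
      have h6 : Tendsto ζ (𝓝 t₀) (𝓝 w) := by
        have := hζc.tendsto
        rwa [hζ0] at this
      exact (rr_cont (n := n)).continuousAt.tendsto.mul
        (h6.add (tendsto_const_nhds.mul (htime (thN n F) hθc y).tendsto))
    have hr : Tendsto (fun s => lam s * Gx cK D B c (xN n F y s)) (𝓝 t₀)
        (𝓝 (lam t₀ * Gx cK D B c (xN n F y t₀))) :=
      (hlc.continuousAt (hJo.mem_nhds ht0J)).tendsto.mul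
        (htime (fun y s => Gx cK D B c (xN n F y s)) hGc y).tendsto
    refine le_of_tendsto_of_tendsto (hl.mono_left nhdsWithin_le_nhds)
      (hr.mono_left (nhdsWithin_le_nhds (s := Iio t₀))) ?_
    have h5 : ∀ᶠ s in 𝓝[<] t₀, t₁ < s ∧ s < t₀ := Ioo_mem_nhdsLT ht10
    filter_upwards [h5, hζm.filter_mono nhdsWithin_le_nhds] with s hs hs₁
    exact (hgood s hs.1.le hs.2 y _ hs₁).le
  have heq : rr n t₀ * (z₀ + E / n * thN n F x₀ t₀) = lam t₀ * Gx cK D B c (xN n F x₀ t₀) :=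
    le_antisymm (hweak x₀ z₀ hp0K.2) hbad
  have hr0 : 0 < rr n t₀ := hF.r0 _ ht0J
  have hq0 : 0 < rr n t₀ / rr n t₁ := div_pos hr0 hr1
  have hlt0 : 0 < lam t₀ := by
    rw [hlam]
    exact mul_pos hl0 (Real.rpow_pos_of_pos hq0 _)
  have hq1 : rr n t₀ / rr n t₁ ≤ 1 := by
    rw [div_le_one hr1]
    unfold rr
    nlinarith
  have hlt1 : lam t₀ ≤ 1 := by
    have h7 : (rr n t₀ / rr n t₁) ^ (1 / 200 : ℝ) ≤ 1 :=
      Real.rpow_le_one hq0.le hq1 (by norm_num)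
    rw [hlam]
    show l₁ * (rr n t₀ / rr n t₁) ^ (1 / 200 : ℝ) ≤ 1
    nlinarith [Real.rpow_nonneg hq0.le (1 / 200 : ℝ)]
  have hrd : HasDerivAt (fun t => rr n t / rr n t₁) (-(2 * n) / rr n t₁) t₀ := by
    have h8 : HasDerivAt (fun t : ℝ => 1 - 2 * (n : ℝ) * t) (-(2 * n)) t₀ := by
      have := ((hasDerivAt_id t₀).const_mul (2 * (n : ℝ))).const_sub 1
      simpa using this
    exact h8.div_const _
  have hld : HasDerivAt lam
      (l₁ * (-(2 * n) / rr n t₁ * (1 / 200) * (rr n t₀ / rr n t₁) ^ ((1 / 200 : ℝ) - 1))) t₀ := by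
    rw [hlam]
    exact (hrd.rpow_const (Or.inl hq0.ne')).const_mul l₁
  have hder : l₁ * (-(2 * n) / rr n t₁ * (1 / 200) * (rr n t₀ / rr n t₁) ^ ((1 / 200 : ℝ) - 1))
      = -(n / 100) * (lam t₀ / rr n t₀) := by
    rw [Real.rpow_sub hq0, Real.rpow_one, hlam]
    show l₁ * (-(2 * n) / rr n t₁ * (1 / 200) *
        ((rr n t₀ / rr n t₁) ^ (1 / 200 : ℝ) / (rr n t₀ / rr n t₁)))
      = -(n / 100) * (l₁ * (rr n t₀ / rr n t₁) ^ (1 / 200 : ℝ) / rr n t₀)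
    have h9 := hr0.ne'
    have h10 := hr1.ne'
    generalize (rr n t₀ / rr n t₁) ^ (1 / 200 : ℝ) = X
    field_simp
    ring
  rw [hder] at hld
  refine hTPR n hn3 cK E D B c hK M J F hF x₀ t₀ ht0J lam (-(n / 100) * (lam t₀ / rr n t₀)) ?_
    hld hlt0 hlt1 ?_ z₀ hp0K.2 heq ?_
  · have h11 : ContDiffAt ℝ 2 (fun t => rr n t / rr n t₁) t₀ := by
      unfold rr
      fun_prop
    rw [hlam]
    exact contDiffAt_const.mul (h11.rpow_const_of_ne hq0.ne')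
  · have h12' : 0 < lam t₀ / rr n t₀ := div_pos hlt0 hr0
    nlinarith [mul_pos hnR h12']
  · have h7 : ∀ᶠ p : M × ℝ in 𝓝 (x₀, t₀), t₁ < p.2 :=
      continuous_snd.continuousAt.eventually (lt_mem_nhds ht10)
    filter_upwards [h7] with p hp hpt w hw
    rcases hpt.eq_or_lt with h8 | h8
    · rw [h8] at hw ⊢
      exact hweak p.1 w hw
    · exact (hgood p.2 hp.le h8 p.1 w hw).le

end Helper47.HC
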